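import Mathlib

/-!
Averages over copies of the additive group of a finite field, and the inequality for two
projections generating a Heisenberg quotient.
-/

namespace Pool.Agent.Helper77.Gap

open scoped RealInnerProductSpace

section algebra

variable {R : Type*} [Ring R] [Algebra ℝ R] {F : Type*} [Field F] [Fintype F]

/-- The average of a family over a finite field. -/
noncomputable def avg (U : F → R) : R := ((Fintype.card F : ℝ)⁻¹) • ∑ a, U a

lemma card_ne : (Fintype.card F : ℝ) ≠ 0 := by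
  exact_mod_cast Fintype.card_ne_zero

lemma sum_eq_avg (U : F → R) : ∑ a, U a = (Fintype.card F : ℝ) • avg U := by
  unfold avg
  rw [smul_smul, mul_inv_cancel₀ card_ne, one_smul]

variable {U U' W : F → R}

lemma mul_avg (hU : ∀ a b, U (a + b) = U a * U b) (a : F) : U a * avg U = avg U := by
  unfold avg
  rw [mul_smul_comm, Finset.mul_sum]
  congr 1
  rw [← Equiv.sum_comp (Equiv.addLeft a) U]
  refine Finset.sum_congr rfl fun b _ => ?_
  rw [← hU]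
  rfl

lemma avg_mul (hU : ∀ a b, U (a + b) = U a * U b) (a : F) : avg U * U a = avg U := by
  unfold avg
  rw [smul_mul_assoc, Finset.sum_mul]
  congr 1
  rw [← Equiv.sum_comp (Equiv.addRight a) U]
  refine Finset.sum_congr rfl fun b _ => ?_
  rw [← hU]
  rfl

lemma avg_mul_avg (hU : ∀ a b, U (a + b) = U a * U b) : avg U * avg U = avg U := by
  conv_lhs => enter [2]; unfold avg
  rw [mul_smul_comm, Finset.mul_sum]
  simp only [avg_mul hU]
  rw [Finset.sum_const, Finset.card_univ, ← Nat.cast_smul_eq_nsmul ℝ, smul_smul,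
    inv_mul_cancel₀ card_ne, one_smul]

lemma avg_comm {V : F → R} (h : ∀ a b, U a * V b = V b * U a) : avg U * avg V = avg V * avg U := by
  unfold avg
  rw [smul_mul_smul_comm, smul_mul_smul_comm, Finset.sum_mul_sum, Finset.sum_mul_sum,
    Finset.sum_comm]
  congr 1
  exact Finset.sum_congr rfl fun a _ => Finset.sum_congr rfl fun b _ => h b a

/-- On the range of the central average the two averages commute. -/
lemma avg_avg_Z (hW : ∀ a b, W (a + b) = W a * W b)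
    (hcomm : ∀ b c, U' b * U c = U c * U' b * W (-(b * c))) :
    avg U' * avg U * avg W = avg U * avg U' * avg W := by
  have h : ∀ b c, U' b * U c * avg W = U c * U' b * avg W := by
    intro b c
    rw [hcomm, mul_assoc (U c * U' b), mul_avg hW]
  conv_lhs => enter [1]; unfold avg
  conv_rhs => enter [1]; unfold avg
  rw [smul_mul_smul_comm, smul_mul_smul_comm, Finset.sum_mul_sum, Finset.sum_mul_sum,
    Finset.sum_comm, smul_mul_assoc, smul_mul_assoc, Finset.sum_mul, Finset.sum_mul]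
  congr 1
  refine Finset.sum_congr rfl fun a _ => ?_
  rw [Finset.sum_mul, Finset.sum_mul]
  exact Finset.sum_congr rfl fun b _ => h b a

/-- The Heisenberg relation for averages. -/
lemma avg_avg_avg (hU : ∀ a b, U (a + b) = U a * U b) (hU' : U' 0 = 1) (hW0 : W 0 = 1)
    (hcomm : ∀ b c, U' b * U c = U c * U' b * W (-(b * c))) :
    avg U * avg U' * avg U = avg U * avg U' * avg W +
      ((Fintype.card F : ℝ)⁻¹) • (avg U - avg U * avg W) := by
  classical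
  set q : ℝ := (Fintype.card F : ℝ) with hq
  have hq0 : q ≠ 0 := card_ne
  -- the inner sums
  have hin : ∀ b, ∑ c, W (-(b * c)) = if b = 0 then q • (1 : R) else q • avg W := by
    intro b
    split_ifs with hb
    · subst hb
      simp only [zero_mul, neg_zero, hW0]
      rw [Finset.sum_const, Finset.card_univ, ← Nat.cast_smul_eq_nsmul ℝ]
    · rw [← sum_eq_avg W]
      have hb' : -b ≠ 0 := neg_ne_zero.2 hb
      rw [← Equiv.sum_comp (Equiv.mulLeft₀ (-b) hb') W]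
      refine Finset.sum_congr rfl fun c _ => ?_
      simp
  have h1 : ∀ b, avg U * U' b * avg U = q⁻¹ • (avg U * (U' b * ∑ c, W (-(b * c)))) := by
    intro b
    conv_lhs => enter [2]; unfold avg
    rw [mul_smul_comm, Finset.mul_sum, Finset.mul_sum, Finset.mul_sum]
    congr 1
    refine Finset.sum_congr rfl fun c _ => ?_
    rw [mul_assoc, hcomm, ← mul_assoc, ← mul_assoc, avg_mul hU, mul_assoc]
  have h2 : ∑ b, U' b * ∑ c, W (-(b * c)) = q • (1 + (q • avg U' - 1) * avg W) := by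
    have h3 : ∀ b, U' b * ∑ c, W (-(b * c)) =
        q • (U' b * avg W) + if b = 0 then q • (1 - avg W) else 0 := by
      intro b
      rw [hin]
      split_ifs with hb
      · subst hb
        rw [hU', one_mul, one_mul, ← smul_add]
        congr 1
        abel
      · rw [mul_smul_comm, add_zero]
    simp only [h3]
    rw [Finset.sum_add_distrib, Finset.sum_ite_eq' , if_pos (Finset.mem_univ _),
      ← Finset.smul_sum, ← Finset.sum_mul, sum_eq_avg U', ← smul_add]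
    congr 1
    rw [sub_mul, one_mul]
    abel
  calc avg U * avg U' * avg U
      = q⁻¹ • ∑ b, avg U * U' b * avg U := by
        conv_lhs => enter [1, 2]; unfold avg
        rw [mul_smul_comm, smul_mul_assoc, Finset.mul_sum, Finset.sum_mul]
    _ = q⁻¹ • q⁻¹ • (avg U * (q • (1 + (q • avg U' - 1) * avg W))) := by
        simp only [h1]
        rw [← Finset.smul_sum, ← Finset.mul_sum, h2]
    _ = q⁻¹ • (avg U * (1 + (q • avg U' - 1) * avg W)) := by
        rw [mul_smul_comm, smul_smul q⁻¹ q, inv_mul_cancel₀ hq0, one_smul]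
    _ = avg U * avg U' * avg W + q⁻¹ • (avg U - avg U * avg W) := by
        rw [sub_mul, one_mul, mul_add, mul_one, mul_sub, smul_mul_assoc, mul_smul_comm,
          ← mul_assoc, smul_add, smul_sub, smul_smul, inv_mul_cancel₀ hq0, one_smul, smul_sub]
        abel

end algebra

section hilbert

variable {H : Type*} [NormedAddCommGroup H] [InnerProductSpace ℝ H]

/-- The inequality for two projections in generic position. -/
lemma generic_ineq (P P' : H →L[ℝ] H) (hP : ∀ x y, ⟪P x, y⟫ = ⟪x, P y⟫)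
    (hP' : ∀ x y, ⟪P' x, y⟫ = ⟪x, P' y⟫) (hPP : ∀ x, P (P x) = P x)
    (hPP' : ∀ x, P' (P' x) = P' x) (ε : ℝ) (hε : 0 < ε) (hε1 : ε < 1) (v : H)
    (h1 : P (P' (P v)) = ε ^ 2 • P v) (h2 : P' (P (P' v)) = ε ^ 2 • P' v) :
    0 ≤ 2 * ⟪v - P v, v - P' v⟫ + ε * (‖v - P v‖ ^ 2 + ‖v - P' v‖ ^ 2) := by
  set a := P v with ha
  set b := P' v with hb
  have hva : ⟪v, a⟫ = ‖a‖ ^ 2 := by
    rw [← real_inner_self_eq_norm_sq, ha, hP, hPP]
  have hvb : ⟪v, b⟫ = ‖b‖ ^ 2 := by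
    rw [← real_inner_self_eq_norm_sq, hb, hP', hPP']
  have hPa : P a = a := hPP v
  have hPb' : P' b = b := hPP' v
  -- inner product of a and b
  have hab : ⟪a, P b⟫ = ⟪a, b⟫ := by rw [← hP, hPa]
  have hba : ⟪b, P' a⟫ = ⟪a, b⟫ := by rw [← hP', hPb', real_inner_comm]
  have hnPb : ‖P b‖ ^ 2 = ε ^ 2 * ‖b‖ ^ 2 := by
    rw [← real_inner_self_eq_norm_sq, hP, hPP]
    have : ⟪b, P b⟫ = ⟪b, P' (P b)⟫ := by rw [← hP', hPb']
    rw [this, h2, real_inner_smul_right, real_inner_self_eq_norm_sq]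
  have hnPb' : ‖P b‖ = ε * ‖b‖ := by
    have : ‖P b‖ ^ 2 = (ε * ‖b‖) ^ 2 := by rw [hnPb]; ring
    exact (sq_eq_sq₀ (norm_nonneg _) (by positivity)).1 this
  have hle : 2 * ⟪a, b⟫ ≤ ε * (‖a‖ ^ 2 + ‖b‖ ^ 2) := by
    have h3 : ⟪a, b⟫ ≤ ‖a‖ * (ε * ‖b‖) := by
      rw [← hab, ← hnPb']
      exact real_inner_le_norm _ _
    nlinarith [sq_nonneg (‖a‖ - ‖b‖)]
  -- the lower bound on the norm of v
  have hε2 : 0 < 1 - ε ^ 2 := by nlinarith
  have hlow : ‖a‖ ^ 2 + ‖b‖ ^ 2 - 2 * ⟪a, b⟫ ≤ (1 - ε ^ 2) * ‖v‖ ^ 2 := by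
    set x := (1 - ε ^ 2)⁻¹ • (a - P b) with hx
    set y := (1 - ε ^ 2)⁻¹ • (b - P' a) with hy
    have hPx : P x = x := by rw [hx, map_smul, map_sub, hPa, hPP]
    have hPy : P' y = y := by rw [hy, map_smul, map_sub, hPb', hPP']
    have hPxy : P (x + y) = a := by
      rw [map_add, hPx, hx, hy, map_smul, map_sub, h1, ← smul_add]
      have : a - P b + (P b - ε ^ 2 • a) = (1 - ε ^ 2) • a := by
        rw [sub_smul, one_smul]; abel
      rw [this, smul_smul, inv_mul_cancel₀ hε2.ne', one_smul]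
    have hPxy' : P' (x + y) = b := by
      rw [map_add, hPy, hx, hy, map_smul, map_sub, h2, ← smul_add]
      have : P' a - ε ^ 2 • b + (b - P' a) = (1 - ε ^ 2) • b := by
        rw [sub_smul, one_smul]; abel
      rw [this, smul_smul, inv_mul_cancel₀ hε2.ne', one_smul]
    have hax : ⟪a, x⟫ = (1 - ε ^ 2)⁻¹ * (‖a‖ ^ 2 - ⟪a, b⟫) := by
      rw [hx, real_inner_smul_right, inner_sub_right, real_inner_self_eq_norm_sq, hab]
    have hby : ⟪b, y⟫ = (1 - ε ^ 2)⁻¹ * (‖b‖ ^ 2 - ⟪a, b⟫) := by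
      rw [hy, real_inner_smul_right, inner_sub_right, real_inner_self_eq_norm_sq, hba]
    have hvx : ⟪v, x⟫ = ⟪a, x⟫ := by rw [← hPx, ← hP, hPx]
    have hvy : ⟪v, y⟫ = ⟪b, y⟫ := by rw [← hPy, ← hP', hPy]
    have hxyx : ⟪x + y, x⟫ = ⟪a, x⟫ := by
      have h3 := hP (x + y) x
      rw [hPx, hPxy] at h3
      exact h3.symm
    have hxyy : ⟪x + y, y⟫ = ⟪b, y⟫ := by
      have h3 := hP' (x + y) y
      rw [hPy, hPxy'] at h3
      exact h3.symm
    have hnn : 0 ≤ ‖v - (x + y)‖ ^ 2 := sq_nonneg _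
    rw [norm_sub_sq_real, inner_add_right, hvx, hvy] at hnn
    have hxy : ‖x + y‖ ^ 2 = ⟪a, x⟫ + ⟪b, y⟫ := by
      rw [← real_inner_self_eq_norm_sq, inner_add_right, hxyx, hxyy]
    rw [hxy, hax, hby] at hnn
    have h4 : (1 - ε ^ 2)⁻¹ * (‖a‖ ^ 2 + ‖b‖ ^ 2 - 2 * ⟪a, b⟫) ≤ ‖v‖ ^ 2 := by
      have : (1 - ε ^ 2)⁻¹ * (‖a‖ ^ 2 + ‖b‖ ^ 2 - 2 * ⟪a, b⟫) =
        (1 - ε ^ 2)⁻¹ * (‖a‖ ^ 2 - ⟪a, b⟫) + (1 - ε ^ 2)⁻¹ * (‖b‖ ^ 2 - ⟪a, b⟫) := by ring
      rw [this]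
      linarith
    rw [inv_mul_le_iff₀ hε2] at h4
    exact h4
  -- final computation
  have hva' : ‖v - a‖ ^ 2 = ‖v‖ ^ 2 - ‖a‖ ^ 2 := by
    rw [norm_sub_sq_real, hva]; ring
  have hvb' : ‖v - b‖ ^ 2 = ‖v‖ ^ 2 - ‖b‖ ^ 2 := by
    rw [norm_sub_sq_real, hvb]; ring
  have hvab : ⟪v - a, v - b⟫ = ‖v‖ ^ 2 - ‖a‖ ^ 2 - ‖b‖ ^ 2 + ⟪a, b⟫ := by
    rw [inner_sub_left, inner_sub_right, inner_sub_right, real_inner_self_eq_norm_sq, hvb,
      real_inner_comm v a, hva]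
    ring
  rw [hva', hvb', hvab]
  set s := ‖a‖ ^ 2 + ‖b‖ ^ 2 with hs
  set n := ‖v‖ ^ 2 with hn
  set c := ⟪a, b⟫ with hc
  have hn1 : (s - 2 * c) / (1 - ε ^ 2) ≤ n := by
    rw [div_le_iff₀ hε2]
    linarith
  have hfin : 0 ≤ (1 + ε) / (1 - ε) * (ε * s - 2 * c) := by
    apply mul_nonneg
    · apply div_nonneg <;> linarith
    · linarith
  have hid : 2 * (1 + ε) * ((s - 2 * c) / (1 - ε ^ 2)) - (2 + ε) * s + 2 * c =
      (1 + ε) / (1 - ε) * (ε * s - 2 * c) := by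
    have h5 : (1 - ε) ≠ 0 := by linarith
    have h6 : (1 + ε) ≠ 0 := by linarith
    have h7 : 1 - ε ^ 2 = (1 - ε) * (1 + ε) := by ring
    rw [h7]
    field_simp
    ring
  have h8 : 2 * (1 + ε) * ((s - 2 * c) / (1 - ε ^ 2)) ≤ 2 * (1 + ε) * n :=
    mul_le_mul_of_nonneg_left hn1 (by linarith)
  have hgoal : 2 * (n - ‖a‖ ^ 2 - ‖b‖ ^ 2 + c) + ε * (n - ‖a‖ ^ 2 + (n - ‖b‖ ^ 2)) =
      2 * (1 + ε) * n - (2 + ε) * s + 2 * c := by
    rw [hs]; ring
  rw [hgoal]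
  linarith

/-- The inequality for commuting projections. -/
lemma commuting_ineq (P P' : H →L[ℝ] H) (hP : ∀ x y, ⟪P x, y⟫ = ⟪x, P y⟫)
    (hP' : ∀ x y, ⟪P' x, y⟫ = ⟪x, P' y⟫) (hPP : ∀ x, P (P x) = P x)
    (hPP' : ∀ x, P' (P' x) = P' x) (v : H) (h : P (P' v) = P' (P v)) :
    0 ≤ ⟪v - P v, v - P' v⟫ := by
  set w := v - P' v with hw
  have hP'w : P' w = 0 := by rw [hw, map_sub, hPP', sub_self]
  have hP'Pw : P' (P w) = 0 := by
    rw [hw, map_sub, map_sub, h, hPP', sub_self]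
  have hww : ⟪w, w⟫ = ⟪v, w⟫ := by
    conv_lhs => rw [hw, inner_sub_left, hP', ← hw, hP'w, inner_zero_right, sub_zero]
  have hwPw : ⟪w, P w⟫ = ⟪v, P w⟫ := by
    have h3 : ⟪w, P w⟫ = ⟪v, P w⟫ - ⟪P' v, P w⟫ := by
      rw [← inner_sub_left]
    rw [h3, hP', hP'Pw, inner_zero_right, sub_zero]
  have h1 : ⟪v - P v, w⟫ = ‖w - P w‖ ^ 2 := by
    have h3 : ⟪P w, w⟫ = ⟪v, P w⟫ := by rw [hP, hwPw]
    have h4 : ⟪P w, P w⟫ = ⟪v, P w⟫ := by rw [hP, hPP, hwPw]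
    have h5 : ⟪P v, w⟫ = ⟪v, P w⟫ := hP v w
    have h6 : ∀ x y : H, ‖x - y‖ ^ 2 = ⟪x, x⟫ - ⟪x, y⟫ - (⟪y, x⟫ - ⟪y, y⟫) := by
      intro x y
      rw [← real_inner_self_eq_norm_sq, inner_sub_left, inner_sub_right, inner_sub_right]
    rw [h6, inner_sub_left, h3, h4, h5, hww, hwPw]
    ring
  rw [h1]
  positivity

/-- The combined inequality. -/
lemma pair_ineq (P P' Z : H →L[ℝ] H) (hP : ∀ x y, ⟪P x, y⟫ = ⟪x, P y⟫)
    (hP' : ∀ x y, ⟪P' x, y⟫ = ⟪x, P' y⟫) (hZ : ∀ x y, ⟪Z x, y⟫ = ⟪x, Z y⟫)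
    (hPP : P * P = P) (hPP' : P' * P' = P') (hZZ : Z * Z = Z) (hZP : Z * P = P * Z)
    (hZP' : Z * P' = P' * Z) (hc : P' * P * Z = P * P' * Z) (ε : ℝ) (hε : 0 < ε) (hε1 : ε < 1)
    (h1 : P * P' * P = P * P' * Z + ε ^ 2 • (P - P * Z))
    (h2 : P' * P * P' = P' * P * Z + ε ^ 2 • (P' - P' * Z)) (v : H) :
    0 ≤ 2 * ⟪v - P v, v - P' v⟫ + ε * (‖v - P v‖ ^ 2 + ‖v - P' v‖ ^ 2) := by
  have e1 : ∀ x, P (P x) = P x := fun x => DFunLike.congr_fun hPP x
  have e2 : ∀ x, P' (P' x) = P' x := fun x => DFunLike.congr_fun hPP' x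
  have e3 : ∀ x, Z (Z x) = Z x := fun x => DFunLike.congr_fun hZZ x
  have e4 : ∀ x, Z (P x) = P (Z x) := fun x => DFunLike.congr_fun hZP x
  have e5 : ∀ x, Z (P' x) = P' (Z x) := fun x => DFunLike.congr_fun hZP' x
  have e6 : ∀ x, P' (P (Z x)) = P (P' (Z x)) := fun x => DFunLike.congr_fun hc x
  have e7 : ∀ x, P (P' (P x)) = P (P' (Z x)) + ε ^ 2 • (P x - P (Z x)) :=
    fun x => DFunLike.congr_fun h1 x
  have e8 : ∀ x, P' (P (P' x)) = P' (P (Z x)) + ε ^ 2 • (P' x - P' (Z x)) :=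
    fun x => DFunLike.congr_fun h2 x
  set v1 := Z v with hv1
  set v2 := v - Z v with hv2
  have hZv1 : Z v1 = v1 := e3 v
  have hZv2 : Z v2 = 0 := by rw [hv2, map_sub, e3, sub_self]
  have hv : v = v1 + v2 := by rw [hv1, hv2]; abel
  have hI := commuting_ineq P P' hP hP' e1 e2 v1 (by
    have := e6 v1
    rw [hZv1] at this
    exact this.symm)
  have hII := generic_ineq P P' hP hP' e1 e2 ε hε hε1 v2
    (by rw [e7, hZv2]; simp) (by rw [e8, hZv2]; simp)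
  have hort : ∀ x y, Z x = x → Z y = 0 → ⟪x, y⟫ = 0 := by
    intro x y hx hy
    rw [← hx, hZ, hy, inner_zero_right]
  have hQ1 : Z (v1 - P v1) = v1 - P v1 := by rw [map_sub, e4, hZv1]
  have hQ1' : Z (v1 - P' v1) = v1 - P' v1 := by rw [map_sub, e5, hZv1]
  have hQ2 : Z (v2 - P v2) = 0 := by rw [map_sub, e4, hZv2]; simp
  have hQ2' : Z (v2 - P' v2) = 0 := by rw [map_sub, e5, hZv2]; simp
  have hd : v - P v = (v1 - P v1) + (v2 - P v2) := by
    conv_lhs => rw [hv, map_add]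
    abel
  have hd' : v - P' v = (v1 - P' v1) + (v2 - P' v2) := by
    conv_lhs => rw [hv, map_add]
    abel
  have hort' : ⟪v2 - P v2, v1 - P' v1⟫ = 0 := by
    rw [real_inner_comm]
    exact hort _ _ hQ1' hQ2
  have hin : ⟪v - P v, v - P' v⟫ = ⟪v1 - P v1, v1 - P' v1⟫ + ⟪v2 - P v2, v2 - P' v2⟫ := by
    rw [hd, hd', inner_add_left, inner_add_right, inner_add_right, hort _ _ hQ1 hQ2', hort']
    ring
  have hn : ‖v - P v‖ ^ 2 = ‖v1 - P v1‖ ^ 2 + ‖v2 - P v2‖ ^ 2 := by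
    rw [hd, norm_add_sq_real, hort _ _ hQ1 hQ2]
    ring
  have hn' : ‖v - P' v‖ ^ 2 = ‖v1 - P' v1‖ ^ 2 + ‖v2 - P' v2‖ ^ 2 := by
    rw [hd', norm_add_sq_real, hort _ _ hQ1' hQ2']
    ring
  rw [hin, hn, hn']
  have h9 : 0 ≤ ε * (‖v1 - P v1‖ ^ 2 + ‖v1 - P' v1‖ ^ 2) := by positivity
  nlinarith

end hilbert

end Pool.Agent.Helper77.Gap
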