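import Mathlib

/-!
The left regular representation on the real Hilbert space of square-summable functions.
-/

namespace Pool.Agent.Helper77.Gap

open scoped RealInnerProductSpace

/-- Square-summable real functions. -/
abbrev H2 (G : Type*) := lp (fun _ : G => ℝ) 2

variable {G : Type*} [Group G]

lemma memlp_comp (σ : G ≃ G) (f : H2 G) : Memℓp (fun x => f (σ x)) 2 := by
  have h := lp.memℓp f
  rw [memℓp_gen_iff (by norm_num)] at h ⊢
  exact (Equiv.summable_iff σ (f := fun i => ‖f i‖ ^ (2 : ENNReal).toReal)).2 h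

/-- Left translation. -/
noncomputable def lamI (g : G) : H2 G →ₗᵢ[ℝ] H2 G where
  toFun f := ⟨fun x => f (g⁻¹ * x), memlp_comp (Equiv.mulLeft g⁻¹) f⟩
  map_add' f h := by ext x; rfl
  map_smul' c f := by ext x; rfl
  norm_map' f := by
    rw [lp.norm_eq_tsum_rpow (by norm_num), lp.norm_eq_tsum_rpow (by norm_num)]
    congr 1
    exact Equiv.tsum_eq (Equiv.mulLeft g⁻¹) (fun x => ‖f x‖ ^ (2 : ENNReal).toReal)

lemma lamI_apply (g : G) (f : H2 G) (x : G) : lamI g f x = f (g⁻¹ * x) := rfl

/-- The left regular representation. -/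
noncomputable def lam : G →* (H2 G →L[ℝ] H2 G) where
  toFun g := (lamI g).toContinuousLinearMap
  map_one' := by
    ext f x
    change f (1⁻¹ * x) = f x
    rw [inv_one, one_mul]
  map_mul' g h := by
    ext f x
    change f ((g * h)⁻¹ * x) = f (h⁻¹ * (g⁻¹ * x))
    rw [mul_inv_rev, mul_assoc]

lemma lam_apply (g : G) (f : H2 G) (x : G) : lam g f x = f (g⁻¹ * x) := rfl

lemma inner_lam_lam (g : G) (f h : H2 G) : ⟪lam g f, lam g h⟫ = ⟪f, h⟫ :=
  (lamI g).inner_map_map f h

lemma inner_lam (g : G) (f h : H2 G) : ⟪lam g f, h⟫ = ⟪f, lam g⁻¹ h⟫ := by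
  rw [← inner_lam_lam g⁻¹ (lam g f) h]
  congr 1
  have : lam g⁻¹ (lam g f) = (lam g⁻¹ * lam g) f := rfl
  rw [this, ← map_mul, inv_mul_cancel, map_one]
  rfl

lemma lam_single [DecidableEq G] (g x : G) (a : ℝ) :
    lam g (lp.single 2 x a) = lp.single 2 (g * x) a := by
  ext y
  rw [lam_apply]
  by_cases h : g⁻¹ * y = x
  · have h' : y = g * x := by rw [← h]; group
    subst h'
    simp
  · have h' : y ≠ g * x := by
      rintro rfl
      apply h
      group
    rw [lp.single_apply_ne _ _ _ h, lp.single_apply_ne _ _ _ h']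

/-- Vectors invariant under an infinite set of translations vanish. -/
lemma eq_zero_of_invariant (S : Set G) (hS : S.Infinite) (f : H2 G)
    (hf : ∀ g ∈ S, lam g f = f) : f = 0 := by
  ext x
  by_contra hne
  have hne' : f x ≠ 0 := hne
  have hsum : Summable fun i => ‖f i‖ ^ (2 : ENNReal).toReal := by
    rw [← memℓp_gen_iff (by norm_num)]
    exact lp.memℓp f
  have h1 := hsum.tendsto_cofinite_zero
  have hpos : 0 < ‖f x‖ ^ (2 : ENNReal).toReal := by
    have : 0 < ‖f x‖ := norm_pos_iff.2 hne'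
    positivity
  have h2 := h1.eventually (gt_mem_nhds hpos)
  rw [Filter.eventually_cofinite] at h2
  have h3 : ((fun g => g⁻¹ * x) '' S).Infinite := by
    apply hS.image
    intro a _ b _ hab
    have : a⁻¹ * x = b⁻¹ * x := hab
    exact inv_injective (mul_right_cancel this)
  apply h3
  refine h2.subset ?_
  rintro _ ⟨g, hg, rfl⟩
  have h4 : f (g⁻¹ * x) = f x := by
    rw [← lam_apply, hf g hg]
  simp only [Set.mem_ofPred_eq]
  rw [h4]
  exact lt_irrefl _

end Pool.Agent.Helper77.Gap
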