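import Mathlib
import Pool.Agent.Helper77.Gap.Rep
import Pool.Agent.Helper77.Gap.Proj
import Pool.Agent.Helper77.Dens.Paradox

/-!
Spectral gap and non-amenability.
-/

namespace Pool.Agent.Helper77.Gap

open scoped RealInnerProductSpace Pointwise

section abstract_gap

variable {H : Type*} [NormedAddCommGroup H] [InnerProductSpace ℝ H] [CompleteSpace H]

/-- If `D` is symmetric, positive, injective and `D² ≥ κ D`, then `D ≥ κ`. -/
theorem gap_of_sq (D : H →L[ℝ] H) (hsym : ∀ x y, ⟪D x, y⟫ = ⟪x, D y⟫)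
    (hpos : ∀ v, 0 ≤ ⟪D v, v⟫) (κ : ℝ) (hκ0 : 0 < κ) (hκ : ∀ v, κ * ⟪D v, v⟫ ≤ ‖D v‖ ^ 2)
    (hker : ∀ v, D v = 0 → v = 0) (v : H) : κ * ‖v‖ ^ 2 ≤ ⟪D v, v⟫ := by
  -- first on the range
  have hrange : ∀ u : H, κ * ‖D u‖ ^ 2 ≤ ⟪D (D u), D u⟫ := by
    intro u
    set y := D u with hy
    have hquad : ∀ t : ℝ, 0 ≤ ⟪D u, u⟫ * (t * t) + (2 * ‖y‖ ^ 2) * t + ⟪D y, y⟫ := by
      intro t
      have h1 := hpos (t • u + y)
      have h2 : ⟪D (t • u + y), t • u + y⟫ =
          ⟪D u, u⟫ * (t * t) + (2 * ‖y‖ ^ 2) * t + ⟪D y, y⟫ := by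
        have h3 : ⟪D y, u⟫ = ‖y‖ ^ 2 := by
          rw [hsym, ← hy, real_inner_self_eq_norm_sq]
        have h4 : ⟪D u, y⟫ = ‖y‖ ^ 2 := by
          rw [← hy, real_inner_self_eq_norm_sq]
        rw [map_add, map_smul, inner_add_left, inner_add_right, inner_add_right,
          real_inner_smul_left, real_inner_smul_right, real_inner_smul_left,
          real_inner_smul_right, h3, h4]
        ring
      rw [h2] at h1
      exact h1
    have hdisc := discrim_le_zero hquad
    unfold discrim at hdisc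
    have h5 : ‖y‖ ^ 2 * ‖y‖ ^ 2 ≤ ⟪D u, u⟫ * ⟪D y, y⟫ := by nlinarith
    have h6 := hκ u
    rw [← hy] at h6
    rcases (sq_nonneg ‖y‖).eq_or_lt with h0 | h0
    · rw [← h0, mul_zero]
      exact hpos y
    · have h7 := hpos y
      have h8 : κ * (‖y‖ ^ 2 * ‖y‖ ^ 2) ≤ ‖y‖ ^ 2 * ⟪D y, y⟫ := by
        calc κ * (‖y‖ ^ 2 * ‖y‖ ^ 2) ≤ κ * (⟪D u, u⟫ * ⟪D y, y⟫) :=
              mul_le_mul_of_nonneg_left h5 hκ0.le
          _ = (κ * ⟪D u, u⟫) * ⟪D y, y⟫ := by ring
          _ ≤ _ := mul_le_mul_of_nonneg_right h6 h7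
      have h9 : ‖y‖ ^ 2 * (κ * ‖y‖ ^ 2) ≤ ‖y‖ ^ 2 * ⟪D y, y⟫ := by linarith
      exact le_of_mul_le_mul_left h9 h0
  -- the range is dense
  let R : Submodule ℝ H := LinearMap.range D.toLinearMap
  have hbot : Rᗮ = ⊥ := by
    rw [eq_bot_iff]
    intro w hw
    rw [Submodule.mem_bot]
    apply hker
    have h1 : ⟪D (D w), w⟫ = 0 := (Submodule.mem_orthogonal _ _).1 hw _ ⟨D w, rfl⟩
    have h2 : ⟪D w, D w⟫ = 0 := by rw [← h1, hsym (D w) w]
    exact inner_self_eq_zero.1 h2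
  have hdense : R.topologicalClosure = ⊤ := Submodule.topologicalClosure_eq_top_iff.2 hbot
  have hv : v ∈ R.topologicalClosure := by rw [hdense]; trivial
  have hclosed : IsClosed {v : H | κ * ‖v‖ ^ 2 ≤ ⟪D v, v⟫} :=
    isClosed_le (by fun_prop) (by fun_prop)
  have hsub : (R : Set H) ⊆ {v : H | κ * ‖v‖ ^ 2 ≤ ⟪D v, v⟫} := by
    rintro _ ⟨u, rfl⟩
    exact hrange u
  exact closure_minimal hsub hclosed hv

end abstract_gap

section group

variable {Γ : Type*} [Group Γ] {F : Type*} [Field F] [Fintype F]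

/-- The averaging projection. -/
noncomputable def PP (u : F → Γ) : H2 Γ →L[ℝ] H2 Γ := avg fun a => lam (u a)

lemma PP_apply (u : F → Γ) (v : H2 Γ) :
    PP u v = (Fintype.card F : ℝ)⁻¹ • ∑ a, lam (u a) v := by
  unfold PP avg
  rw [smul_apply, sum_apply]

lemma lam_add {u : F → Γ} (hu : ∀ a b, u (a + b) = u a * u b) (a b : F) :
    lam (u (a + b)) = lam (u a) * lam (u b) := by rw [hu, map_mul]

lemma u_zero {u : F → Γ} (hu : ∀ a b, u (a + b) = u a * u b) : u 0 = 1 := by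
  have := hu 0 0
  rw [add_zero] at this
  exact (mul_eq_left.1 this.symm)

lemma u_neg {u : F → Γ} (hu : ∀ a b, u (a + b) = u a * u b) (a : F) : u (-a) = (u a)⁻¹ := by
  have := hu a (-a)
  rw [add_neg_cancel, u_zero hu] at this
  exact (inv_eq_of_mul_eq_one_right this.symm).symm

lemma PP_symm {u : F → Γ} (hu : ∀ a b, u (a + b) = u a * u b) (x y : H2 Γ) :
    ⟪PP u x, y⟫ = ⟪x, PP u y⟫ := by
  rw [PP_apply, PP_apply, real_inner_smul_left, real_inner_smul_right, sum_inner, inner_sum]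
  congr 1
  rw [← Equiv.sum_comp (Equiv.neg F)]
  refine Finset.sum_congr rfl fun a _ => ?_
  rw [inner_lam, Equiv.neg_apply, u_neg hu, inv_inv]

lemma PP_sq {u : F → Γ} (hu : ∀ a b, u (a + b) = u a * u b) : PP u * PP u = PP u :=
  avg_mul_avg (lam_add hu)

lemma lam_PP {u : F → Γ} (hu : ∀ a b, u (a + b) = u a * u b) (a : F) :
    lam (u a) * PP u = PP u := mul_avg (U := fun a => lam (u a)) (lam_add hu) a

/-- The Heisenberg relations between two families. -/
def Heis (u u' : F → Γ) : Prop := ∃ w : F → Γ, (∀ a b, w (a + b) = w a * w b) ∧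
  (∀ b c, u' b * u c = u c * u' b * w (-(b * c))) ∧ (∀ c b, w c * u b = u b * w c) ∧
  ∀ c b, w c * u' b = u' b * w c

lemma heis_ineq {u u' : F → Γ} (hu : ∀ a b, u (a + b) = u a * u b)
    (hu' : ∀ a b, u' (a + b) = u' a * u' b) (h : Heis u u') (ε : ℝ) (hε : 0 < ε) (hε1 : ε < 1)
    (hq : (Fintype.card F : ℝ)⁻¹ = ε ^ 2) (v : H2 Γ) :
    0 ≤ 2 * ⟪v - PP u v, v - PP u' v⟫ + ε * (‖v - PP u v‖ ^ 2 + ‖v - PP u' v‖ ^ 2) := by
  obtain ⟨w, hw, hcomm, hwu, hwu'⟩ := h
  have hL : ∀ b c, lam (u' b) * lam (u c) = lam (u c) * lam (u' b) * lam (w (-(b * c))) := by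
    intro b c
    rw [← map_mul, ← map_mul, ← map_mul, hcomm]
  have hcomm' : ∀ b c, u b * u' c = u' c * u b * w (- -(b * c)) := by
    intro b c
    have h1 := hcomm c b
    rw [neg_neg]
    rw [h1, mul_assoc (u b * u' c), ← hw, mul_comm c b, neg_add_cancel, u_zero hw, mul_one]
  have hL' : ∀ b c, lam (u b) * lam (u' c) = lam (u' c) * lam (u b) * lam (w (- -(b * c))) := by
    intro b c
    rw [← map_mul, ← map_mul, ← map_mul, hcomm']
  have havgneg : avg (fun a : F => lam (w (-a))) = PP w := by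
    unfold PP avg
    congr 1
    exact Equiv.sum_comp (Equiv.neg F) fun a => lam (w a)
  have hwneg : ∀ a b : F, w (-(a + b)) = w (-a) * w (-b) := by
    intro a b
    rw [← hw, neg_add]
  refine pair_ineq (PP u) (PP u') (PP w) (PP_symm hu) (PP_symm hu') (PP_symm hw) (PP_sq hu)
    (PP_sq hu') (PP_sq hw) ?_ ?_ ?_ ε hε hε1 ?_ ?_ v
  · apply avg_comm
    intro a b
    rw [← map_mul, hwu, map_mul]
  · apply avg_comm
    intro a b
    rw [← map_mul, hwu', map_mul]
  · exact avg_avg_Z (lam_add hw) hL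
  · rw [← hq]
    exact avg_avg_avg (lam_add hu) (by rw [u_zero hu', map_one]) (by rw [u_zero hw, map_one]) hL
  · rw [← hq, ← havgneg]
    exact avg_avg_avg (U := fun a => lam (u' a)) (U' := fun a => lam (u a))
      (W := fun a => lam (w (-a))) (lam_add hu') (by rw [u_zero hu, map_one])
      (by rw [neg_zero, u_zero hw, map_one]) hL'

variable {ι : Type*} [Fintype ι] (u : ι → F → Γ)

/-- The Laplacian. -/
noncomputable def Lap : H2 Γ →L[ℝ] H2 Γ := ∑ i, (1 - PP (u i))

lemma Lap_apply (v : H2 Γ) : Lap u v = ∑ i, (v - PP (u i) v) := by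
  unfold Lap
  rw [sum_apply]
  rfl

variable {u} (hu : ∀ i a b, u i (a + b) = u i a * u i b)

include hu

lemma inner_sub_PP (i : ι) (v : H2 Γ) : ⟪v - PP (u i) v, v⟫ = ‖v - PP (u i) v‖ ^ 2 := by
  have h1 : PP (u i) (PP (u i) v) = PP (u i) v := DFunLike.congr_fun (PP_sq (hu i)) v
  have h2 : ⟪v - PP (u i) v, PP (u i) v⟫ = 0 := by
    rw [← PP_symm (hu i), map_sub, h1, sub_self, inner_zero_left]
  rw [← real_inner_self_eq_norm_sq]
  conv_rhs => rw [inner_sub_right, h2, sub_zero]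

lemma Lap_inner (v : H2 Γ) : ⟪Lap u v, v⟫ = ∑ i, ‖v - PP (u i) v‖ ^ 2 := by
  rw [Lap_apply, sum_inner]
  exact Finset.sum_congr rfl fun i _ => inner_sub_PP hu i v

lemma Lap_symm (x y : H2 Γ) : ⟪Lap u x, y⟫ = ⟪x, Lap u y⟫ := by
  rw [Lap_apply, Lap_apply, sum_inner, inner_sum]
  refine Finset.sum_congr rfl fun i _ => ?_
  rw [inner_sub_left, inner_sub_right, PP_symm (hu i)]

lemma Lap_sq (hH : ∀ i j, i ≠ j → Heis (u i) (u j)) (ε : ℝ) (hε : 0 < ε) (hε1 : ε < 1)
    (hq : (Fintype.card F : ℝ)⁻¹ = ε ^ 2) (v : H2 Γ) :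
    (1 - (Fintype.card ι - 1) * ε) * ⟪Lap u v, v⟫ ≤ ‖Lap u v‖ ^ 2 := by
  classical
  rw [Lap_inner hu, ← real_inner_self_eq_norm_sq, Lap_apply, sum_inner]
  simp only [inner_sum]
  set s := ∑ i, ‖v - PP (u i) v‖ ^ 2 with hs
  have h1 : ∀ i j, -(ε / 2) * (‖v - PP (u i) v‖ ^ 2 + ‖v - PP (u j) v‖ ^ 2) +
      (if i = j then (1 + ε) * ‖v - PP (u i) v‖ ^ 2 else 0) ≤
      ⟪v - PP (u i) v, v - PP (u j) v⟫ := by
    intro i j
    split_ifs with hij
    · subst hij
      rw [real_inner_self_eq_norm_sq]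
      apply le_of_eq
      ring
    · have := heis_ineq (hu i) (hu j) (hH i j hij) ε hε hε1 hq v
      linarith
  refine le_trans ?_ (Finset.sum_le_sum fun i _ => Finset.sum_le_sum fun j _ => h1 i j)
  simp only [Finset.sum_add_distrib, ← Finset.mul_sum, Finset.sum_ite_eq, Finset.mem_univ,
    if_true, Finset.sum_const, Finset.card_univ, nsmul_eq_mul]
  rw [← hs]
  apply le_of_eq
  ring

lemma Lap_ker (hinf : ((Subgroup.closure {g | ∃ i a, g = u i a} : Subgroup Γ) : Set Γ).Infinite)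
    (v : H2 Γ) (hv : Lap u v = 0) : v = 0 := by
  have h1 : ∑ i, ‖v - PP (u i) v‖ ^ 2 = 0 := by
    rw [← Lap_inner hu, hv, inner_zero_left]
  have h2 : ∀ i, PP (u i) v = v := by
    intro i
    have := (Finset.sum_eq_zero_iff_of_nonneg fun i _ => sq_nonneg ‖v - PP (u i) v‖).1 h1 i
      (Finset.mem_univ i)
    have h3 : ‖v - PP (u i) v‖ = 0 := by simpa using this
    exact (sub_eq_zero.1 (norm_eq_zero.1 h3)).symm
  have h3 : ∀ i a, lam (u i a) v = v := by
    intro i a
    have h4 : lam (u i a) (PP (u i) v) = PP (u i) v :=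
      DFunLike.congr_fun (lam_PP (hu i) a) v
    rwa [h2 i] at h4
  refine eq_zero_of_invariant _ hinf v fun g hg => ?_
  induction hg using Subgroup.closure_induction with
  | mem x hx =>
    obtain ⟨i, a, rfl⟩ := hx
    exact h3 i a
  | one => rw [map_one]; rfl
  | mul x y _ _ hx hy =>
    rw [map_mul]
    change lam x (lam y v) = v
    rw [hy, hx]
  | inv x _ hx =>
    conv_lhs => rw [← hx]
    change (lam x⁻¹ * lam x) v = v
    rw [← map_mul, inv_mul_cancel, map_one]
    rfl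

lemma Lap_gap (hH : ∀ i j, i ≠ j → Heis (u i) (u j)) (ε : ℝ) (hε : 0 < ε) (hε1 : ε < 1)
    (hq : (Fintype.card F : ℝ)⁻¹ = ε ^ 2) (hκ : 0 < 1 - (Fintype.card ι - 1) * ε)
    (hinf : ((Subgroup.closure {g | ∃ i a, g = u i a} : Subgroup Γ) : Set Γ).Infinite)
    (v : H2 Γ) : (1 - (Fintype.card ι - 1) * ε) * ‖v‖ ^ 2 ≤ ⟪Lap u v, v⟫ := by
  refine gap_of_sq (Lap u) (Lap_symm hu) (fun v => ?_) _ hκ (Lap_sq hu hH ε hε hε1 hq)
    (Lap_ker hu hinf) v
  rw [Lap_inner hu]
  positivity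

end group

section expansion

variable {Γ : Type*} [Group Γ]

open Classical in
/-- The indicator function of a finite set. -/
noncomputable def ind (W : Finset Γ) : H2 Γ := ∑ w ∈ W, lp.single 2 w (1 : ℝ)

open Classical in
lemma inner_single (x y : Γ) :
    ⟪(lp.single 2 x (1 : ℝ) : H2 Γ), lp.single 2 y (1 : ℝ)⟫ = if x = y then 1 else 0 := by
  rw [lp.inner_single_left]
  split_ifs with h
  · subst h
    simp
  · rw [lp.single_apply_ne _ _ _ h]
    simp

open Classical in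
lemma inner_lam_ind (g : Γ) (W : Finset Γ) :
    ⟪lam g (ind W), ind W⟫ = ((W.filter fun w => g * w ∈ W).card : ℝ) := by
  unfold ind
  rw [map_sum, sum_inner]
  simp only [lam_single, inner_sum, inner_single]
  simp only [Finset.sum_ite_eq]
  rw [Finset.sum_boole]

lemma norm_ind (W : Finset Γ) : ‖ind W‖ ^ 2 = (W.card : ℝ) := by
  classical
  have h := inner_lam_ind (1 : Γ) W
  rw [map_one] at h
  have h1 : ((1 : H2 Γ →L[ℝ] H2 Γ) (ind W)) = ind W := rfl
  rw [h1, real_inner_self_eq_norm_sq] at h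
  rw [h]
  simp

variable {F : Type*} [Field F] [Fintype F] {ι : Type*} [Fintype ι] [Nonempty ι] {u : ι → F → Γ}

open Classical in
/-- The finite set of all `u i a`. -/
noncomputable def Sset (u : ι → F → Γ) : Finset Γ := Finset.univ.image fun p : ι × F => u p.1 p.2

omit [Nonempty ι] in
lemma mem_Sset (i : ι) (a : F) : u i a ∈ Sset u := by
  classical
  exact Finset.mem_image.2 ⟨(i, a), Finset.mem_univ _, rfl⟩

open Classical in
lemma expansion (hu : ∀ i a b, u i (a + b) = u i a * u i b) (κ : ℝ)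
    (hgap : ∀ v : H2 Γ, κ * ‖v‖ ^ 2 ≤ ⟪Lap u v, v⟫) (W : Finset Γ) :
    (1 + κ / Fintype.card ι) * W.card ≤ ((Sset u * W).card : ℝ) := by
  set S := Sset u with hS
  have h1S : (1 : Γ) ∈ S := by
    rw [← u_zero (hu (Classical.arbitrary ι))]
    exact mem_Sset _ _
  have hWS : W ⊆ S * W := fun w hw => by
    rw [← one_mul w]
    exact Finset.mul_mem_mul h1S hw
  have hcard : ∀ g ∈ S, (2 * W.card : ℝ) - (S * W).card ≤
      ((W.filter fun w => g * w ∈ W).card : ℝ) := by
    intro g hg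
    have h1 : (W.filter fun w => ¬ (g * w ∈ W)).card ≤ ((S * W) \ W).card := by
      apply Finset.card_le_card_of_injOn (fun w => g * w)
      · intro w hw
        have hw' := Finset.mem_filter.1 hw
        exact Finset.mem_coe.2 (Finset.mem_sdiff.2 ⟨Finset.mul_mem_mul hg hw'.1, hw'.2⟩)
      · intro a _ b _ hab
        exact mul_left_cancel hab
    have h2 : ((S * W) \ W).card = (S * W).card - W.card := Finset.card_sdiff_of_subset hWS
    have h3 := Finset.card_filter_add_card_filter_not (s := W) (fun w => g * w ∈ W)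
    have h4 := Finset.card_le_card hWS
    have h5 : 2 * W.card ≤ (S * W).card + (W.filter fun w => g * w ∈ W).card := by omega
    have h6 : (2 * W.card : ℝ) ≤ (S * W).card + (W.filter fun w => g * w ∈ W).card := by
      exact_mod_cast h5
    linarith
  have hP : ∀ i, (2 * W.card : ℝ) - (S * W).card ≤ ⟪PP (u i) (ind W), ind W⟫ := by
    intro i
    rw [PP_apply, real_inner_smul_left, sum_inner]
    have hq : 0 < (Fintype.card F : ℝ) := by exact_mod_cast Fintype.card_pos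
    rw [← div_eq_inv_mul, le_div_iff₀ hq]
    calc ((2 * W.card : ℝ) - (S * W).card) * Fintype.card F
        = ∑ _a : F, ((2 * W.card : ℝ) - (S * W).card) := by
          rw [Finset.sum_const, Finset.card_univ, nsmul_eq_mul]
          ring
      _ ≤ _ := by
          apply Finset.sum_le_sum
          intro a _
          rw [inner_lam_ind]
          exact hcard _ (mem_Sset i a)
  have h2 := hgap (ind W)
  rw [norm_ind, Lap_apply, sum_inner] at h2
  have h3 : ∑ i, ⟪ind W - PP (u i) (ind W), ind W⟫ ≤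
      ∑ _i : ι, (((S * W).card : ℝ) - W.card) := by
    apply Finset.sum_le_sum
    intro i _
    rw [inner_sub_left, real_inner_self_eq_norm_sq, norm_ind]
    linarith [hP i]
  rw [Finset.sum_const, Finset.card_univ, nsmul_eq_mul] at h3
  have h4 := h2.trans h3
  have hk : 0 < (Fintype.card ι : ℝ) := by exact_mod_cast Fintype.card_pos
  have h5 : κ / Fintype.card ι * W.card ≤ ((S * W).card : ℝ) - W.card := by
    rw [div_mul_eq_mul_div, div_le_iff₀ hk]
    linarith
  linarith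

theorem not_amenable_of_gap {Γ : Type} [Group Γ] {F : Type*} [Field F] [Fintype F] {ι : Type*}
    [Fintype ι] [Nonempty ι] {u : ι → F → Γ}
    (hu : ∀ i a b, u i (a + b) = u i a * u i b) (κ : ℝ) (hκ : 0 < κ)
    (hgap : ∀ v : H2 Γ, κ * ‖v‖ ^ 2 ≤ ⟪Lap u v, v⟫) : ¬ Dens.Amenable Γ := by
  classical
  set c : ℝ := 1 + κ / Fintype.card ι with hc
  have hk : 0 < (Fintype.card ι : ℝ) := by exact_mod_cast Fintype.card_pos
  have hc1 : 1 < c := by
    have : 0 < κ / Fintype.card ι := by positivity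
    linarith
  have hpow : ∀ r : ℕ, ∀ W : Finset Γ, c ^ r * W.card ≤ (((Sset u) ^ r * W).card : ℝ) := by
    intro r
    induction r with
    | zero => intro W; simp
    | succ r ih =>
      intro W
      have h1 := expansion hu κ hgap ((Sset u) ^ r * W)
      rw [pow_succ' (Sset u), mul_assoc]
      refine le_trans ?_ h1
      rw [pow_succ', mul_assoc]
      exact mul_le_mul_of_nonneg_left (ih W) (by linarith)
  obtain ⟨r, hr⟩ := pow_unbounded_of_one_lt 2 hc1
  apply Dens.not_amenable_of_doubling ((Sset u) ^ r)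
  intro W
  have h1 := hpow r W
  have h2 : (2 : ℝ) * W.card ≤ (((Sset u) ^ r * W).card : ℝ) := by
    refine le_trans ?_ h1
    exact mul_le_mul_of_nonneg_right hr.le (Nat.cast_nonneg _)
  have h3 : 2 * W.card ≤ ((Sset u) ^ r * W).card := by exact_mod_cast h2
  convert h3
  rfl

end expansion

end Pool.Agent.Helper77.Gap
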