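import Mathlib
import Pool.Agent.Helper77.Dens.Defs

/-!
A criterion for property (e).
-/

namespace Pool.Agent.Helper77.Dens

universe u

/-- The packing condition in terms of finite sets. -/
def Packs {G : Type u} [Group G] (A : Set G) (E : Set G) : Prop :=
  ∀ x ∈ E, ∀ y ∈ E, x ≠ y → Disjoint ((fun g => x * g) '' A) ((fun g => y * g) '' A)

lemma exists_packing_of_lt {G : Type u} [Group G] {A : Set G} (m : ℕ) (h2 : (m : ℕ∞) < pack A) :
    ∃ E : Finset G, E.card = m ∧ Packs A (E : Set G) := by
  unfold pack at h2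
  rw [lt_iSup_iff] at h2
  obtain ⟨⟨E, hE⟩, hm⟩ := h2
  obtain ⟨t, ht, htm⟩ := Set.exists_subset_encard_eq hm.le
  have hfin : t.Finite := Set.finite_of_encard_eq_coe htm
  refine ⟨hfin.toFinset, ?_, ?_⟩
  · rw [hfin.encard_eq_coe_toFinset_card] at htm
    exact_mod_cast htm
  · intro x hx y hy hxy
    rw [Set.Finite.coe_toFinset] at hx hy
    exact hE x (ht hx) y (ht hy) hxy

/-- The uniform form of property (e): every partition into `n` cells has a cell with
`pack ≤ Φ n`. -/
def UniformPropE (G : Type u) [Group G] (Φ : ℕ → ℕ) : Prop :=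
  HasGoodCells G fun n A => pack A ≤ Φ n

lemma UniformPropE.propE {G : Type u} [Group G] {Φ : ℕ → ℕ} (h : UniformPropE G Φ) : PropE G := by
  intro n hn A hA
  obtain ⟨i, hi⟩ := h n hn A hA
  exact ⟨i, lt_of_le_of_lt hi (ENat.natCast_lt_top _)⟩

theorem uniform_propE_of (Γ : Type u) [Group Γ]
    (h : ∀ N : ℕ, ∃ (q : ℕ) (τ : Γ → Fin q), ∀ f : Fin N → Γ,
      (∀ j, ∃ x y, τ x = τ y ∧ f j = x⁻¹ * y) →
      ((Subgroup.closure (Set.range f) : Subgroup Γ) : Set Γ).Finite) :
    ∃ Φ, UniformPropE Γ Φ := by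
  classical
  choose Q τ' hτ' using h
  refine ⟨fun n => Q (n * (n + 1)) * n + 1, ?_⟩
  intro n hn A hA
  by_contra hcon
  push Not at hcon
  let q := Q (n * (n + 1))
  let τ : Γ → Fin q := τ' (n * (n + 1))
  have hτ := hτ' (n * (n + 1))
  -- packings inside one class
  have hE : ∀ i : Fin n, ∃ e : Fin (n + 1) → Γ, Function.Injective e ∧
      (∀ a b, a ≠ b → Disjoint ((fun g => e a * g) '' A i) ((fun g => e b * g) '' A i)) ∧
      ∀ a, τ (e 0) = τ (e a) := by
    intro i
    obtain ⟨E, hcard, hE⟩ := exists_packing_of_lt (q * n + 1) (hcon i)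
    obtain ⟨c, _, hc⟩ := Finset.exists_lt_card_fiber_of_mul_lt_card_of_maps_to (s := E)
      (t := (Finset.univ : Finset (Fin q))) (f := τ) (n := n) (fun a _ => Finset.mem_univ _)
      (by rw [Finset.card_univ, Fintype.card_fin, hcard]; omega)
    obtain ⟨E', hE', hcard'⟩ := Finset.exists_subset_card_eq (Nat.succ_le_of_lt hc)
    let e := (Finset.equivFinOfCardEq hcard').symm
    have hmem : ∀ a, ((e a : Γ) ∈ E ∧ τ (e a) = c) := by
      intro a
      have := hE' (e a).2
      rw [Finset.mem_filter] at this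
      exact this
    refine ⟨fun a => (e a : Γ), fun a b hab => e.injective (Subtype.ext hab), ?_, ?_⟩
    · intro a b hab
      exact hE _ (hmem a).1 _ (hmem b).1 fun h => hab (e.injective (Subtype.ext h))
    · intro a
      rw [(hmem 0).2, (hmem a).2]
  choose e _ hdis hτe using hE
  let f : Fin (n * (n + 1)) → Γ := fun j =>
    (e (finProdFinEquiv.symm j).1 0)⁻¹ * e (finProdFinEquiv.symm j).1 (finProdFinEquiv.symm j).2
  have hfin := hτ f fun j => ⟨_, _, hτe _ _, rfl⟩
  set H : Subgroup Γ := Subgroup.closure (Set.range f) with hH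
  have hfH : ∀ i a, (e i 0)⁻¹ * e i a ∈ H := by
    intro i a
    apply Subgroup.subset_closure
    exact ⟨finProdFinEquiv (i, a), by simp only [f, Equiv.symm_apply_apply]⟩
  -- counting in H
  let HF : Finset Γ := hfin.toFinset
  have hHF : ∀ g, g ∈ HF ↔ g ∈ H := fun g => by
    rw [Set.Finite.mem_toFinset]
    rfl
  let P : Fin n → Finset Γ := fun i => HF.filter fun g => g ∈ A i
  have hsum : ∑ i, (P i).card = HF.card := by
    rw [← Finset.card_biUnion]
    · congr 1
      ext g
      simp only [Finset.mem_biUnion, Finset.mem_univ, true_and]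
      constructor
      · rintro ⟨i, hi⟩
        exact (Finset.mem_filter.1 hi).1
      · intro hg
        obtain ⟨i, hi⟩ := hA.2 g
        exact ⟨i, Finset.mem_filter.2 ⟨hg, hi⟩⟩
    · intro i _ j _ hij
      rw [Function.onFun, Finset.disjoint_left]
      intro g hg hg'
      exact Set.disjoint_left.1 (hA.1 i j hij) (Finset.mem_filter.1 hg).2
        (Finset.mem_filter.1 hg').2
  have hle : ∀ i, (n + 1) * (P i).card ≤ HF.card := by
    intro i
    have h1 : (Finset.univ.biUnion fun a : Fin (n + 1) =>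
        (P i).image fun g => ((e i 0)⁻¹ * e i a) * g) ⊆ HF := by
      intro y hy
      simp only [Finset.mem_biUnion, Finset.mem_univ, true_and, Finset.mem_image] at hy
      obtain ⟨a, g, hg, rfl⟩ := hy
      rw [hHF]
      exact H.mul_mem (hfH i a) ((hHF g).1 (Finset.mem_filter.1 hg).1)
    refine le_trans ?_ (Finset.card_le_card h1)
    rw [Finset.card_biUnion]
    · have h2 : ∀ a : Fin (n + 1), ((P i).image fun g => ((e i 0)⁻¹ * e i a) * g).card =
          (P i).card := fun a =>
        Finset.card_image_of_injective _ fun x y hxy => mul_left_cancel hxy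
      simp only [h2]
      simp
    · intro a _ b _ hab
      rw [Function.onFun, Finset.disjoint_left]
      intro y hy hy'
      obtain ⟨g, hg, rfl⟩ := Finset.mem_image.1 hy
      obtain ⟨g', hg', hgg⟩ := Finset.mem_image.1 hy'
      have hd := hdis i a b hab
      rw [Set.disjoint_left] at hd
      apply hd ⟨g, (Finset.mem_filter.1 hg).2, rfl⟩
      refine ⟨g', (Finset.mem_filter.1 hg').2, ?_⟩
      simp only [mul_assoc] at hgg
      exact mul_left_cancel hgg
  have hpos : 0 < HF.card := by
    apply Finset.card_pos.2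
    exact ⟨1, (hHF 1).2 H.one_mem⟩
  have h3 : (n + 1) * HF.card ≤ n * HF.card := by
    calc (n + 1) * HF.card = ∑ i, (n + 1) * (P i).card := by rw [← hsum, Finset.mul_sum]
      _ ≤ ∑ _i : Fin n, HF.card := Finset.sum_le_sum fun i _ => hle i
      _ = n * HF.card := by simp
  nlinarith

end Pool.Agent.Helper77.Dens
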