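import Mathlib
import Pool.Agent.Helper77.GS.Quot
import Pool.Agent.Helper77.Gap.Gap
import Pool.Agent.Helper77.Gap.PropE

/-!
The unit group of the Golod-Shafarevich algebra is not amenable but has property (e).
-/

namespace Pool.Agent.Helper77.GS

open Module Submodule

section units

variable {K A : Type*} [Field K] [Ring A] [Algebra K A]

lemma one_add_mul_one_add {x : A} (hx : x * x = 0) (a b : K) :
    (1 + a • x) * (1 + b • x) = 1 + (a + b) • x := by
  rw [mul_add, add_mul, add_mul, smul_mul_smul_comm, hx, smul_zero, add_smul]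
  simp only [one_mul, mul_one, add_zero]
  abel

/-- The unit `1 + a x` for an element `x` with `x² = 0`. -/
def ua (x : A) (hx : x * x = 0) (a : K) : Aˣ where
  val := 1 + a • x
  inv := 1 + (-a) • x
  val_inv := by rw [one_add_mul_one_add hx, add_neg_cancel, zero_smul, add_zero]
  inv_val := by rw [one_add_mul_one_add hx, neg_add_cancel, zero_smul, add_zero]

@[simp] lemma ua_val (x : A) (hx : x * x = 0) (a : K) : (ua x hx a : A) = 1 + a • x := rfl

lemma ua_add (x : A) (hx : x * x = 0) (a b : K) : ua x hx (a + b) = ua x hx a * ua x hx b := by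
  ext
  rw [Units.val_mul, ua_val, ua_val, ua_val, one_add_mul_one_add hx]

lemma heis_ua {x y : A} (hx : x * x = 0) (hy : y * y = 0) (hxy : x * y * x = 0)
    (hyx : y * x * y = 0) : Gap.Heis (ua (K := K) x hx) (ua y hy) := by
  have hxz : x * (x * y - y * x) = 0 := by
    rw [mul_sub, ← mul_assoc, ← mul_assoc, hx, hxy, zero_mul, sub_zero]
  have hyz : y * (x * y - y * x) = 0 := by
    rw [mul_sub, ← mul_assoc, ← mul_assoc, hy, hyx, zero_mul, sub_zero]
  have hzx : (x * y - y * x) * x = 0 := by
    rw [sub_mul, hxy, mul_assoc y x x, hx, mul_zero, sub_zero]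
  have hzy : (x * y - y * x) * y = 0 := by
    rw [sub_mul, hyx, mul_assoc x y y, hy, mul_zero, sub_zero]
  have hz : (x * y - y * x) * (x * y - y * x) = 0 := by
    rw [mul_sub, ← mul_assoc, ← mul_assoc, hzx, hzy, zero_mul, zero_mul, sub_zero]
  refine ⟨ua (x * y - y * x) hz, ua_add _ _, ?_, ?_, ?_⟩
  · intro b c
    ext
    simp only [Units.val_mul, ua_val]
    set z := x * y - y * x with hzdef
    have h1 : y * x = x * y - z := by rw [hzdef]; abel
    simp only [mul_add, add_mul, one_mul, mul_one, smul_mul_smul_comm, mul_assoc, hyz,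
      hxz, mul_zero, smul_zero, add_zero]
    rw [h1, smul_sub, mul_comm c b, neg_smul]
    abel
  · intro c b
    ext
    simp only [Units.val_mul, ua_val, mul_add, add_mul, one_mul, mul_one, smul_mul_smul_comm,
      hzx, hxz, smul_zero, add_zero]
    abel
  · intro c b
    ext
    simp only [Units.val_mul, ua_val, mul_add, add_mul, one_mul, mul_one, smul_mul_smul_comm,
      hzy, hyz, smul_zero, add_zero]
    abel

end units

/-- The group: units of the Golod-Shafarevich algebra. -/
abbrev GSG : Type := GSAˣ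

/-- The one-parameter subgroups. -/
noncomputable def uu (i : Fin 16) : ZMod 257 → GSG := ua (wb.gen En i) (wb.gen_sq En i)

lemma uu_add (i : Fin 16) (a b : ZMod 257) : uu i (a + b) = uu i a * uu i b := ua_add _ _ a b

lemma heis_uu (i j : Fin 16) : Gap.Heis (uu i) (uu j) :=
  heis_ua _ _ (wb.gen_aba En i j) (wb.gen_aba En j i)

lemma infinite_closure :
    ((Subgroup.closure {g | ∃ i a, g = uu i a} : Subgroup GSG) : Set GSG).Infinite := by
  intro hfin
  set H : Subgroup GSG := Subgroup.closure {g | ∃ i a, g = uu i a} with hH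
  set S : Submonoid GSA := H.toSubmonoid.map (Units.coeHom GSA) with hS
  have hSfin : (S : Set GSA).Finite := by
    rw [hS, Submonoid.coe_map]
    exact hfin.image _
  have h1 : Algebra.adjoin (ZMod 257) (Set.range (wb.gen En)) ≤
      Algebra.adjoin (ZMod 257) (S : Set GSA) := by
    rw [Algebra.adjoin_le_iff]
    rintro _ ⟨i, rfl⟩
    have h2 : wb.gen En i = (uu i 1 : GSA) - 1 := by
      unfold uu
      rw [ua_val, one_smul]
      abel
    rw [h2]
    apply sub_mem _ (one_mem _)
    apply Algebra.subset_adjoin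
    exact ⟨uu i 1, Subgroup.subset_closure ⟨i, 1, rfl⟩, rfl⟩
  rw [wb.adjoin_gen En] at h1
  have h3 : (Set.univ : Set GSA) ⊆ (span (ZMod 257) (S : Set GSA) : Submodule (ZMod 257) GSA) := by
    intro x _
    have h4 : x ∈ Subalgebra.toSubmodule (Algebra.adjoin (ZMod 257) (S : Set GSA)) :=
      h1 (Algebra.mem_top)
    rw [Algebra.adjoin_eq_span, Submonoid.closure_eq] at h4
    exact h4
  have : FiniteDimensional (ZMod 257) (span (ZMod 257) (S : Set GSA)) :=
    FiniteDimensional.span_of_finite _ hSfin
  have : Finite (span (ZMod 257) (S : Set GSA)) := Module.finite_of_finite (ZMod 257)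
  have h5 : (Set.univ : Set GSA).Finite :=
    (Set.toFinite ((span (ZMod 257) (S : Set GSA) : Submodule (ZMod 257) GSA) : Set GSA)).subset h3
  have h6 : Infinite GSA := wb.infinite_alg En (by simp)
  exact Set.infinite_univ h5

theorem not_amenable_GSG : ¬ Dens.Amenable GSG := by
  have h257 : (0 : ℝ) < 257 := by norm_num
  have hs : (Real.sqrt 257) ^ 2 = 257 := Real.sq_sqrt h257.le
  have hs0 : 16 < Real.sqrt 257 := by
    rw [Real.lt_sqrt (by norm_num)]
    norm_num
  have hκ : (0 : ℝ) < 1 - ((Fintype.card (Fin 16) : ℝ) - 1) * (Real.sqrt 257)⁻¹ := by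
    rw [Fintype.card_fin, sub_pos, ← div_eq_mul_inv, div_lt_one (by linarith)]
    push_cast
    linarith
  refine Gap.not_amenable_of_gap uu_add _ hκ fun v => ?_
  refine Gap.Lap_gap uu_add (fun i j _ => heis_uu i j) (Real.sqrt 257)⁻¹ (by positivity) ?_ ?_ hκ
    infinite_closure v
  · rw [inv_lt_one₀ (by linarith)]
    linarith
  · rw [inv_pow, hs, ZMod.card]
    norm_num

/-- A group generated by finitely many units in a finite subalgebra is finite. -/
lemma finite_closure_of_finite {K A : Type*} [Field K] [Ring A] [Algebra K A]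
    (R : Subalgebra K A) (hR : (R : Set A).Finite) {ι : Type*} (f : ι → Aˣ)
    (hf : ∀ j, ((f j : A) - 1) ∈ R) :
    ((Subgroup.closure (Set.range f) : Subgroup Aˣ) : Set Aˣ).Finite := by
  let S : Submonoid Aˣ := R.toSubmonoid.comap (Units.coeHom A)
  have hmem : ∀ g : Aˣ, g ∈ S ↔ (g : A) ∈ R := fun g => Iff.rfl
  have hSfin : (S : Set Aˣ).Finite := by
    have h0 : (S : Set Aˣ) = (fun g : Aˣ => (g : A)) ⁻¹' (R : Set A) := rfl
    rw [h0]
    exact hR.preimage (Units.val_injective.injOn)
  have : Finite S := hSfin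
  have hinv : ∀ g ∈ S, g⁻¹ ∈ S := by
    intro g hg
    have h2 : IsOfFinOrder g := by
      by_contra h
      exact Set.infinite_of_injective_forall_mem (injective_pow_iff_not_isOfFinOrder.2 h)
        (fun n => S.pow_mem hg n) hSfin
    have h3 : g⁻¹ ∈ Submonoid.powers g := by
      rw [h2.mem_powers_iff_mem_zpowers]
      exact Subgroup.inv_mem _ (Subgroup.mem_zpowers g)
    exact (Submonoid.powers_le.2 hg) h3
  refine hSfin.subset fun g hg => ?_
  induction hg using Subgroup.closure_induction with
  | mem x hx =>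
    obtain ⟨j, rfl⟩ := hx
    have : (f j : A) = ((f j : A) - 1) + 1 := by abel
    change (f j : A) ∈ R
    rw [this]
    exact add_mem (hf j) (one_mem R)
  | one => exact S.one_mem
  | mul x y _ _ hx hy => exact S.mul_mem hx hy
  | inv x _ hx => exact hinv x hx

theorem uniform_propE_GSG : ∃ Φ, Dens.UniformPropE GSG Φ := by
  classical
  refine Dens.uniform_propE_of GSG fun N => ?_
  obtain ⟨F, hF, hrep⟩ := wb.exists_finite_reps En (N + 1)
  choose rep hrepF hrepL using hrep
  have : Fintype F := hF.fintype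
  refine ⟨Fintype.card F, fun g => Fintype.equivFin F ⟨rep (g : GSA), hrepF _⟩, fun f hf => ?_⟩
  have h1 : ∀ j, ((f j : GSA) - 1) ∈ wb.L En (N + 1) := by
    intro j
    obtain ⟨x, y, hxy, hj⟩ := hf j
    have hr : rep (x : GSA) = rep (y : GSA) := by
      have := (Fintype.equivFin F).injective hxy
      exact congrArg Subtype.val this
    have h2 : (f j : GSA) - 1 = ((x⁻¹ : GSG) : GSA) *
        (((y : GSA) - rep (y : GSA)) - ((x : GSA) - rep (x : GSA))) := by
      rw [hj, Units.val_mul, hr]
      have : (x⁻¹ : GSG).val * (x : GSA) = 1 := by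
        rw [← Units.val_mul, inv_mul_cancel, Units.val_one]
      rw [sub_sub_sub_cancel_right, mul_sub, this]
    rw [h2]
    exact wb.mul_mem_L En (sub_mem (hrepL _) (hrepL _)) _
  exact finite_closure_of_finite _ (wb.finite_adjoin En En_surjective N _ h1) f
    fun j => Algebra.subset_adjoin ⟨j, rfl⟩

end Pool.Agent.Helper77.GS
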